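import Mathlib

set_option autoImplicit false

/-!
The renewal sequence of the uniform distribution on 1, ..., L, and the ramp kernel L - j.
Used for the upper bound of finite Sidon sets.
-/

namespace Pool.Agent.Helper23.SU

open Finset

/-- Renewal sequence on the naturals. -/
noncomputable def chiN (L : ℕ) : ℕ → ℝ
  | 0 => 1
  | (k + 1) => (∑ i : Fin (k + 1), if (i : ℕ) < L then chiN L (k - i) else 0) / L
decreasing_by exact Nat.lt_succ_of_le (Nat.sub_le k i)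

/-- The properties of the renewal sequence, extended by zero to negative indices. -/
structure IsChi (L : ℕ) (χ : ℤ → ℝ) : Prop where
  neg : ∀ k : ℤ, k < 0 → χ k = 0
  zero : χ 0 = 1
  nonneg : ∀ k : ℤ, 0 ≤ χ k
  recur : ∀ k : ℕ, (L : ℝ) * χ ((k : ℤ) + 1) = ∑ i ∈ range L, χ ((k : ℤ) - i)

theorem chiN_nonneg (L : ℕ) (k : ℕ) : 0 ≤ chiN L k := by
  induction k using Nat.strong_induction_on with
  | _ k ih =>
    cases k with
    | zero => rw [chiN]; norm_num
    | succ k =>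
      rw [chiN]
      apply div_nonneg _ (Nat.cast_nonneg L)
      apply Finset.sum_nonneg
      intro i _
      split_ifs
      · exact ih _ (Nat.lt_succ_of_le (Nat.sub_le k i))
      · exact le_refl 0

theorem exists_chi (L : ℕ) (hL : 0 < L) : ∃ χ : ℤ → ℝ, IsChi L χ := by
  refine ⟨fun z => if z < 0 then 0 else chiN L z.toNat, ?_, ?_, ?_, ?_⟩
  · intro k hk
    simp [hk]
  · have : chiN L 0 = 1 := by rw [chiN]
    simp [this]
  · intro k
    show 0 ≤ (if k < 0 then (0 : ℝ) else chiN L k.toNat)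
    split_ifs
    · exact le_refl 0
    · exact chiN_nonneg L _
  · intro k
    have hL' : (L : ℝ) ≠ 0 := by exact_mod_cast hL.ne'
    have h1 : ¬ ((k : ℤ) + 1 < 0) := by omega
    have h2 : ((k : ℤ) + 1).toNat = k + 1 := by omega
    show (L : ℝ) * (if (k : ℤ) + 1 < 0 then (0 : ℝ) else chiN L ((k : ℤ) + 1).toNat) =
      ∑ i ∈ range L, (if (k : ℤ) - (i : ℤ) < 0 then (0 : ℝ) else chiN L ((k : ℤ) - (i : ℤ)).toNat)
    rw [if_neg h1, h2, chiN, mul_div_cancel₀ _ hL']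
    rw [Fin.sum_univ_eq_sum_range (fun i => if i < L then chiN L (k - i) else 0) (k + 1)]
    rw [← Finset.sum_filter]
    have h3 : (∑ i ∈ range L, if (k : ℤ) - (i : ℤ) < 0 then (0 : ℝ)
        else chiN L ((k : ℤ) - (i : ℤ)).toNat) =
        ∑ i ∈ range L, if i ≤ k then chiN L (k - i) else 0 := by
      apply Finset.sum_congr rfl
      intro i _
      by_cases hi : i ≤ k
      · have : ¬ ((k : ℤ) - (i : ℤ) < 0) := by omega
        have h4 : ((k : ℤ) - (i : ℤ)).toNat = k - i := by omega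
        rw [if_neg this, if_pos hi, h4]
      · have : ((k : ℤ) - (i : ℤ) < 0) := by omega
        rw [if_pos this, if_neg hi]
    rw [h3, ← Finset.sum_filter]
    apply Finset.sum_congr _ (fun _ _ => rfl)
    ext i
    simp only [mem_filter, mem_range]
    omega

/-- Shift formula for ramp weighted sums. -/
theorem ramp_shift (f : ℤ → ℝ) (k : ℤ) (n : ℕ) :
    ∑ j ∈ range n, ((n : ℝ) - j) * f (k + 1 - j) =
      ∑ j ∈ range n, ((n : ℝ) - j) * f (k - j) + n * f (k + 1) - ∑ j ∈ range n, f (k - j) := by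
  have key : ∀ (g : ℕ → ℝ) (n : ℕ), ∑ j ∈ range (n + 1), (((n + 1 : ℕ) : ℝ) - j) * g j =
      ∑ j ∈ range n, ((n : ℝ) - j) * g j + ∑ j ∈ range (n + 1), g j := by
    intro g n
    rw [Finset.sum_range_succ, Finset.sum_range_succ g n, ← add_assoc, ← Finset.sum_add_distrib]
    congr 1
    · apply Finset.sum_congr rfl
      intro j _
      push_cast
      ring
    · push_cast
      ring
  induction n with
  | zero => simp
  | succ n ih =>
    rw [key (fun j => f (k + 1 - j)), key (fun j => f (k - j)), ih]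
    have h1 : ∑ j ∈ range (n + 1), f (k + 1 - (j : ℤ)) =
        ∑ j ∈ range n, f (k - (j : ℤ)) + f (k + 1) := by
      rw [Finset.sum_range_succ']
      congr 1
      · apply Finset.sum_congr rfl
        intro j _
        congr 1
        push_cast
        ring
      · simp
    rw [h1]
    push_cast
    ring

section
variable {L : ℕ} {χ : ℤ → ℝ}

theorem conv_nonneg (hχ : IsChi L χ) (hL : 0 < L) (k : ℕ) :
    ∑ j ∈ range L, ((L : ℝ) - j) * χ ((k : ℤ) - j) = L := by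
  induction k with
  | zero =>
    obtain ⟨M, rfl⟩ : ∃ M, L = M + 1 := ⟨L - 1, by omega⟩
    rw [Finset.sum_range_succ']
    have : ∑ j ∈ range M, (((M + 1 : ℕ) : ℝ) - ((j + 1 : ℕ) : ℝ)) *
        χ (((0 : ℕ) : ℤ) - ((j + 1 : ℕ) : ℤ)) = 0 := by
      apply Finset.sum_eq_zero
      intro j _
      rw [hχ.neg _ (by push_cast; omega), mul_zero]
    rw [this]
    simp [hχ.zero]
  | succ k ih =>
    have h := ramp_shift χ (k : ℤ) L
    rw [ih, hχ.recur k] at h
    push_cast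
    rw [h]
    ring

theorem conv_neg (hχ : IsChi L χ) (k : ℤ) (hk : k < 0) :
    ∑ j ∈ range L, ((L : ℝ) - j) * χ (k - j) = 0 := by
  apply Finset.sum_eq_zero
  intro j _
  rw [hχ.neg _ (by omega), mul_zero]

/-- The function G(k) = sum of (L - j) chi(k + j). -/
noncomputable def GG (L : ℕ) (χ : ℤ → ℝ) (k : ℤ) : ℝ := ∑ j ∈ range L, ((L : ℝ) - j) * χ (k + j)

/-- Total weight of the ramp. -/
noncomputable def SS (L : ℕ) : ℝ := ∑ j ∈ range L, ((L : ℝ) - j)

theorem G_conv (hχ : IsChi L χ) (hL : 0 < L) (k : ℕ) :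
    ∑ j ∈ range L, ((L : ℝ) - j) * GG L χ ((k : ℤ) - j) = L * SS L := by
  unfold GG
  have h1 : ∀ j ∈ range L, ((L : ℝ) - j) * ∑ i ∈ range L, ((L : ℝ) - i) * χ ((k : ℤ) - j + i) =
      ∑ i ∈ range L, ((L : ℝ) - i) * (((L : ℝ) - j) * χ (((k + i : ℕ) : ℤ) - j)) := by
    intro j _
    rw [Finset.mul_sum]
    apply Finset.sum_congr rfl
    intro i _
    have : ((k : ℤ) - j + i) = (((k + i : ℕ) : ℤ) - j) := by push_cast; ring
    rw [this]
    ring
  rw [Finset.sum_congr rfl h1, Finset.sum_comm]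
  have h2 : ∀ i ∈ range L, ∑ j ∈ range L, ((L : ℝ) - i) * (((L : ℝ) - j) * χ (((k + i : ℕ) : ℤ) - j))
      = ((L : ℝ) - i) * L := by
    intro i _
    rw [← Finset.mul_sum, conv_nonneg hχ hL (k + i)]
  rw [Finset.sum_congr rfl h2, ← Finset.sum_mul, SS]
  ring

/-- First boundary term. -/
noncomputable def PP (L : ℕ) (χ : ℤ → ℝ) (K : ℤ) : ℝ :=
  ∑ j ∈ range L, ((L : ℝ) - j) * ∑ i ∈ range j, χ (K - i)

/-- Second boundary term. -/
noncomputable def QQ (L : ℕ) (χ : ℤ → ℝ) (K : ℤ) : ℝ :=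
  ∑ j ∈ range L, ((L : ℝ) - j) * ∑ i ∈ range j, χ (K + 1 + i) * GG L χ (K + 1 + i - j)

theorem PP_step (K : ℤ) :
    PP L χ (K + 1) - PP L χ K =
      SS L * χ (K + 1) - ∑ j ∈ range L, ((L : ℝ) - j) * χ (K + 1 - j) := by
  unfold PP SS
  rw [← Finset.sum_sub_distrib, Finset.sum_mul, ← Finset.sum_sub_distrib]
  apply Finset.sum_congr rfl
  intro j _
  have h := Finset.sum_range_sub' (fun i : ℕ => χ (K + 1 - i)) j
  have h2 : ∑ i ∈ range j, χ (K + 1 - i) - ∑ i ∈ range j, χ (K - i) = χ (K + 1) - χ (K + 1 - j) := by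
    rw [← Finset.sum_sub_distrib]
    have h3 : ∀ i ∈ range j, χ (K + 1 - (i : ℤ)) - χ (K - (i : ℤ)) =
        (fun i : ℕ => χ (K + 1 - i)) i - (fun i : ℕ => χ (K + 1 - i)) (i + 1) := by
      intro i _
      show χ (K + 1 - (i : ℤ)) - χ (K - (i : ℤ)) = χ (K + 1 - (i : ℤ)) - χ (K + 1 - ((i + 1 : ℕ) : ℤ))
      congr 2
      push_cast
      ring
    rw [Finset.sum_congr rfl h3, h]
    simp
  rw [← mul_sub, h2]
  ring

theorem QQ_step (K : ℤ) :
    QQ L χ (K + 1) - QQ L χ K =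
      GG L χ (K + 1) ^ 2 - χ (K + 1) * ∑ j ∈ range L, ((L : ℝ) - j) * GG L χ (K + 1 - j) := by
  have h0 : ∀ j : ℕ, ∑ i ∈ range j, χ (K + 1 + 1 + i) * GG L χ (K + 1 + 1 + i - j) -
      ∑ i ∈ range j, χ (K + 1 + i) * GG L χ (K + 1 + i - j) =
      χ (K + 1 + j) * GG L χ (K + 1) - χ (K + 1) * GG L χ (K + 1 - j) := by
    intro j
    have h := Finset.sum_range_sub (fun i : ℕ => χ (K + 1 + i) * GG L χ (K + 1 + i - j)) j
    rw [← Finset.sum_sub_distrib]
    have h3 : ∀ i ∈ range j, χ (K + 1 + 1 + (i : ℤ)) * GG L χ (K + 1 + 1 + (i : ℤ) - (j : ℤ)) -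
        χ (K + 1 + (i : ℤ)) * GG L χ (K + 1 + (i : ℤ) - (j : ℤ)) =
        (fun i : ℕ => χ (K + 1 + i) * GG L χ (K + 1 + i - j)) (i + 1) -
        (fun i : ℕ => χ (K + 1 + i) * GG L χ (K + 1 + i - j)) i := by
      intro i _
      show _ = χ (K + 1 + ((i + 1 : ℕ) : ℤ)) * GG L χ (K + 1 + ((i + 1 : ℕ) : ℤ) - (j : ℤ)) -
        χ (K + 1 + (i : ℤ)) * GG L χ (K + 1 + (i : ℤ) - (j : ℤ))
      have e : K + 1 + ((i + 1 : ℕ) : ℤ) = K + 1 + 1 + (i : ℤ) := by push_cast; ring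
      rw [e]
    rw [Finset.sum_congr rfl h3, h]
    simp
  unfold QQ
  rw [← Finset.sum_sub_distrib]
  have h4 : ∀ j ∈ range L, ((L : ℝ) - j) * (∑ i ∈ range j, χ (K + 1 + 1 + i) *
        GG L χ (K + 1 + 1 + i - j)) -
      ((L : ℝ) - j) * (∑ i ∈ range j, χ (K + 1 + i) * GG L χ (K + 1 + i - j)) =
      GG L χ (K + 1) * (((L : ℝ) - j) * χ (K + 1 + j)) -
      χ (K + 1) * (((L : ℝ) - j) * GG L χ (K + 1 - j)) := by
    intro j _
    rw [← mul_sub, h0 j]
    ring
  rw [Finset.sum_congr rfl h4, Finset.sum_sub_distrib, ← Finset.mul_sum, ← Finset.mul_sum]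
  have h5 : ∑ j ∈ range L, ((L : ℝ) - j) * χ (K + 1 + j) = GG L χ (K + 1) := rfl
  rw [h5]
  ring

theorem chi_mul_G_conv (hχ : IsChi L χ) (hL : 0 < L) (k : ℤ) :
    χ k * ∑ j ∈ range L, ((L : ℝ) - j) * GG L χ (k - j) = χ k * (L * SS L) := by
  by_cases hk : k < 0
  · rw [hχ.neg k hk, zero_mul, zero_mul]
  · obtain ⟨n, rfl⟩ : ∃ n : ℕ, k = n := ⟨k.toNat, by omega⟩
    rw [G_conv hχ hL n]

/-- The energy identity. -/
theorem energy (hχ : IsChi L χ) (hL : 0 < L) (t : ℕ) :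
    ∑ s ∈ range t, GG L χ ((s : ℤ) - L + 1) ^ 2 =
      L * (∑ s ∈ range t, ∑ j ∈ range L, ((L : ℝ) - j) * χ ((s : ℤ) - L + 1 - j)) +
      L * PP L χ ((t : ℤ) - L) + QQ L χ ((t : ℤ) - L) := by
  induction t with
  | zero =>
    have hP : PP L χ (((0 : ℕ) : ℤ) - L) = 0 := by
      unfold PP
      apply Finset.sum_eq_zero
      intro j _
      rw [Finset.sum_eq_zero, mul_zero]
      intro i _
      apply hχ.neg
      have : (0 : ℤ) < L := by exact_mod_cast hL
      push_cast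
      omega
    have hQ : QQ L χ (((0 : ℕ) : ℤ) - L) = 0 := by
      unfold QQ
      apply Finset.sum_eq_zero
      intro j hj
      rw [Finset.sum_eq_zero, mul_zero]
      intro i hi
      rw [hχ.neg, zero_mul]
      have h1 := mem_range.mp hj
      have h2 := mem_range.mp hi
      push_cast
      omega
    rw [hP, hQ]
    simp
  | succ t ih =>
    rw [Finset.sum_range_succ, Finset.sum_range_succ, ih]
    have e : (((t + 1 : ℕ) : ℤ) - L) = ((t : ℤ) - L) + 1 := by push_cast; ring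
    rw [e]
    have hP := PP_step (L := L) (χ := χ) ((t : ℤ) - L)
    have hQ := QQ_step (L := L) (χ := χ) ((t : ℤ) - L)
    rw [chi_mul_G_conv hχ hL] at hQ
    linear_combination (-(L : ℝ)) * hP - hQ

theorem SS_eq (L : ℕ) : SS L = (L : ℝ) * (L + 1) / 2 := by
  unfold SS
  induction L with
  | zero => simp
  | succ n ih =>
    have : ∑ j ∈ range (n + 1), (((n + 1 : ℕ) : ℝ) - j) =
        ∑ j ∈ range n, ((n : ℝ) - j) + (n + 1) := by
      rw [Finset.sum_range_succ]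
      have : ∑ j ∈ range n, (((n + 1 : ℕ) : ℝ) - j) = ∑ j ∈ range n, ((n : ℝ) - j) + n := by
        have h : ∀ j ∈ range n, (((n + 1 : ℕ) : ℝ) - j) = ((n : ℝ) - j) + 1 := by
          intro j _; push_cast; ring
        rw [Finset.sum_congr rfl h, Finset.sum_add_distrib]
        simp
      rw [this]
      push_cast
      ring
    rw [this, ih]
    push_cast
    ring

theorem sum_sq_eq (L : ℕ) : ∑ j ∈ range L, ((L : ℝ) - j) ^ 2 = (L : ℝ) * (L + 1) * (2 * L + 1) / 6 := by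
  induction L with
  | zero => simp
  | succ n ih =>
    rw [Finset.sum_range_succ']
    have h : ∀ j ∈ range n, (((n + 1 : ℕ) : ℝ) - ((j + 1 : ℕ) : ℝ)) ^ 2 = ((n : ℝ) - j) ^ 2 := by
      intro j _; push_cast; ring
    rw [Finset.sum_congr rfl h, ih]
    push_cast
    ring

theorem sum_W_eq (L : ℕ) : ∑ j ∈ range L, ((L : ℝ) - j) * j = ((L : ℝ) ^ 2 - 1) * L / 6 := by
  have h1 : ∀ n : ℕ, ∑ j ∈ range n, (j : ℝ) = (n : ℝ) * (n - 1) / 2 := by
    intro n
    induction n with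
    | zero => simp
    | succ n ih => rw [Finset.sum_range_succ, ih]; push_cast; ring
  have h2 : ∀ n : ℕ, ∑ j ∈ range n, (j : ℝ) ^ 2 = (n : ℝ) * (n - 1) * (2 * n - 1) / 6 := by
    intro n
    induction n with
    | zero => simp
    | succ n ih => rw [Finset.sum_range_succ, ih]; push_cast; ring
  have h3 : ∀ j ∈ range L, ((L : ℝ) - j) * j = L * j - (j : ℝ) ^ 2 := by
    intro j _; ring
  rw [Finset.sum_congr rfl h3, Finset.sum_sub_distrib, ← Finset.mul_sum, h1, h2]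
  ring

/-- Exponential decay of the renewal sequence to its limit. -/
theorem decay (hχ : IsChi L χ) (hL : 0 < L) (k : ℕ) :
    ∑ j ∈ range L, ((L : ℝ) - j) * (χ ((k : ℤ) - j) - L / SS L) ^ 2 ≤ L * (1 - 1 / (L : ℝ)) ^ k := by
  have hL' : (0 : ℝ) < L := by exact_mod_cast hL
  have hS : 0 < SS L := by rw [SS_eq]; positivity
  set c : ℝ := L / SS L with hc
  have hcS : c * SS L = L := by rw [hc]; field_simp
  have hc0 : 0 ≤ c := by rw [hc]; positivity
  have hmean : ∀ k : ℕ, ∑ j ∈ range L, ((L : ℝ) - j) * (χ ((k : ℤ) - j) - c) = 0 := by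
    intro k
    have : ∀ j ∈ range L, ((L : ℝ) - j) * (χ ((k : ℤ) - j) - c) =
        ((L : ℝ) - j) * χ ((k : ℤ) - j) - c * ((L : ℝ) - j) := by
      intro j _; ring
    rw [Finset.sum_congr rfl this, Finset.sum_sub_distrib, conv_nonneg hχ hL, ← Finset.mul_sum]
    have h5 : ∑ j ∈ range L, ((L : ℝ) - j) = SS L := rfl
    rw [h5, hcS]
    ring
  induction k with
  | zero =>
    have hsq : ∀ j ∈ range L, ((L : ℝ) - j) * (χ (((0 : ℕ) : ℤ) - j) - c) ^ 2 =
        (1 - 2 * c) * (((L : ℝ) - j) * χ (((0 : ℕ) : ℤ) - j)) + c ^ 2 * ((L : ℝ) - j) := by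
      intro j _
      have h01 : χ (((0 : ℕ) : ℤ) - j) ^ 2 = χ (((0 : ℕ) : ℤ) - j) := by
        rcases Nat.eq_zero_or_pos j with h | h
        · subst h; simp [hχ.zero]
        · rw [hχ.neg _ (by push_cast; omega)]; ring
      linear_combination ((L : ℝ) - j) * h01
    rw [Finset.sum_congr rfl hsq, Finset.sum_add_distrib, ← Finset.mul_sum, ← Finset.mul_sum,
      conv_nonneg hχ hL]
    have h5 : ∑ j ∈ range L, ((L : ℝ) - j) = SS L := rfl
    rw [h5]
    have : c ^ 2 * SS L = c * L := by rw [pow_two, mul_assoc, hcS]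
    rw [this, pow_zero]
    nlinarith
  | succ k ih =>
    have hstep := ramp_shift (fun z => (χ z - c) ^ 2) (k : ℤ) L
    have hmu : (L : ℝ) * (χ ((k : ℤ) + 1) - c) = ∑ j ∈ range L, (χ ((k : ℤ) - j) - c) := by
      rw [mul_sub, hχ.recur k, Finset.sum_sub_distrib]
      simp
    set V : ℝ := ∑ j ∈ range L, ((L : ℝ) - j) * (χ ((k : ℤ) - j) - c) ^ 2 with hV
    set mu : ℝ := χ ((k : ℤ) + 1) - c with hmudef
    have h1 : V ≤ ∑ j ∈ range L, ((L : ℝ) - j) * ((χ ((k : ℤ) - j) - c) - mu) ^ 2 := by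
      have : ∀ j ∈ range L, ((L : ℝ) - j) * ((χ ((k : ℤ) - j) - c) - mu) ^ 2 =
          ((L : ℝ) - j) * (χ ((k : ℤ) - j) - c) ^ 2 - (2 * mu) * (((L : ℝ) - j) *
            (χ ((k : ℤ) - j) - c)) + mu ^ 2 * ((L : ℝ) - j) := by
        intro j _; ring
      rw [Finset.sum_congr rfl this, Finset.sum_add_distrib, Finset.sum_sub_distrib,
        ← Finset.mul_sum, ← Finset.mul_sum, hmean k]
      have h5 : ∑ j ∈ range L, ((L : ℝ) - j) = SS L := rfl
      rw [h5]
      have : 0 ≤ mu ^ 2 * SS L := by positivity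
      linarith
    have h2 : ∑ j ∈ range L, ((L : ℝ) - j) * ((χ ((k : ℤ) - j) - c) - mu) ^ 2 ≤
        L * ∑ j ∈ range L, ((χ ((k : ℤ) - j) - c) - mu) ^ 2 := by
      rw [Finset.mul_sum]
      apply Finset.sum_le_sum
      intro j _
      apply mul_le_mul_of_nonneg_right _ (sq_nonneg _)
      have : (0 : ℝ) ≤ j := Nat.cast_nonneg j
      linarith
    have h3 : ∑ j ∈ range L, ((χ ((k : ℤ) - j) - c) - mu) ^ 2 =
        ∑ j ∈ range L, (χ ((k : ℤ) - j) - c) ^ 2 - L * mu ^ 2 := by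
      have : ∀ j ∈ range L, ((χ ((k : ℤ) - j) - c) - mu) ^ 2 =
          (χ ((k : ℤ) - j) - c) ^ 2 - (2 * mu) * (χ ((k : ℤ) - j) - c) + mu ^ 2 := by
        intro j _; ring
      rw [Finset.sum_congr rfl this, Finset.sum_add_distrib, Finset.sum_sub_distrib,
        ← Finset.mul_sum, ← hmu]
      simp
      ring
    have h4 : V ≤ L * (∑ j ∈ range L, (χ ((k : ℤ) - j) - c) ^ 2 - L * mu ^ 2) := by
      rw [← h3]; exact h1.trans h2
    have h5 : ∑ j ∈ range L, ((L : ℝ) - j) * (χ ((k : ℤ) + 1 - j) - c) ^ 2 =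
        V + L * mu ^ 2 - ∑ j ∈ range L, (χ ((k : ℤ) - j) - c) ^ 2 := hstep
    have h6 : ∑ j ∈ range L, ((L : ℝ) - j) * (χ (((k + 1 : ℕ) : ℤ) - j) - c) ^ 2 =
        ∑ j ∈ range L, ((L : ℝ) - j) * (χ ((k : ℤ) + 1 - j) - c) ^ 2 := by
      push_cast; rfl
    rw [h6, h5, pow_succ]
    have h7 : V / L ≤ ∑ j ∈ range L, (χ ((k : ℤ) - j) - c) ^ 2 - L * mu ^ 2 := by
      rw [div_le_iff₀ hL']; linarith
    have h8 : V + L * mu ^ 2 - ∑ j ∈ range L, (χ ((k : ℤ) - j) - c) ^ 2 ≤ V * (1 - 1 / (L : ℝ)) := by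
      have : V * (1 - 1 / (L : ℝ)) = V - V / L := by ring
      rw [this]; linarith
    have h9 : 0 ≤ 1 - 1 / (L : ℝ) := by
      have : (1 : ℝ) ≤ L := by exact_mod_cast hL
      rw [sub_nonneg, div_le_one hL']
      exact this
    calc _ ≤ V * (1 - 1 / (L : ℝ)) := h8
      _ ≤ (L * (1 - 1 / (L : ℝ)) ^ k) * (1 - 1 / (L : ℝ)) := mul_le_mul_of_nonneg_right ih h9
      _ = _ := by ring

theorem chi_sub_sq_le (hχ : IsChi L χ) (hL : 0 < L) (k : ℕ) :
    (χ (k : ℤ) - L / SS L) ^ 2 ≤ (1 - 1 / (L : ℝ)) ^ k := by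
  have hL' : (0 : ℝ) < L := by exact_mod_cast hL
  have h := decay hχ hL k
  have h1 : (L : ℝ) * (χ (k : ℤ) - L / SS L) ^ 2 ≤
      ∑ j ∈ range L, ((L : ℝ) - j) * (χ ((k : ℤ) - j) - L / SS L) ^ 2 := by
    have := Finset.single_le_sum (f := fun j : ℕ => ((L : ℝ) - j) * (χ ((k : ℤ) - j) - L / SS L) ^ 2)
      (s := range L) (fun j hj => by
        apply mul_nonneg _ (sq_nonneg _)
        have : (j : ℝ) ≤ L := by exact_mod_cast (mem_range.mp hj).le
        linarith) (mem_range.mpr hL)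
    simpa using this
  have h2 := h1.trans h
  exact le_of_mul_le_mul_left h2 hL'

end

end Pool.Agent.Helper23.SU
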