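import Pool.Agent.Helper23.SU.Chi

set_option autoImplicit false

/-!
Counting argument: weighted windows over a Sidon set.
-/

namespace Pool.Agent.Helper23.SU

open Finset

/-- Sidon condition in the form used by the problem. -/
def Sid (A : Finset ℕ) : Prop :=
  ∀ a ∈ A, ∀ b ∈ A, ∀ c ∈ A, ∀ d ∈ A, a + b = c + d → (a = c ∧ b = d) ∨ (a = d ∧ b = c)

/-- Ramp weighted window count, indexed from the right. -/
noncomputable def UU (A : Finset ℕ) (n L : ℕ) (s : ℕ) : ℝ :=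
  ∑ p ∈ A ×ˢ range L, if p.1 + p.2 + s + 1 = n + L then ((L : ℝ) - p.2) else 0

theorem mass_identity {L n : ℕ} {χ : ℤ → ℝ} (hχ : IsChi L χ) (hL : 0 < L) (A : Finset ℕ)
    (hA : A ⊆ Finset.Icc 1 n) :
    ∑ s ∈ range (n + L - 1), GG L χ ((s : ℤ) - L + 1) * UU A n L s = A.card * (L * SS L) := by
  unfold UU
  have h1 : ∀ s ∈ range (n + L - 1), GG L χ ((s : ℤ) - L + 1) *
      (∑ p ∈ A ×ˢ range L, if p.1 + p.2 + s + 1 = n + L then ((L : ℝ) - p.2) else 0) =
      ∑ p ∈ A ×ˢ range L, if p.1 + p.2 + s + 1 = n + L then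
        ((L : ℝ) - p.2) * GG L χ ((n : ℤ) - p.1 - p.2) else 0 := by
    intro s _
    rw [Finset.mul_sum]
    apply Finset.sum_congr rfl
    intro p _
    split_ifs with h
    · have : ((s : ℤ) - L + 1) = ((n : ℤ) - p.1 - p.2) := by omega
      rw [this]; ring
    · simp
  rw [Finset.sum_congr rfl h1, Finset.sum_comm, Finset.sum_product]
  have h2 : ∀ a ∈ A, ∑ j ∈ range L, ∑ s ∈ range (n + L - 1),
      (if a + j + s + 1 = n + L then ((L : ℝ) - j) * GG L χ ((n : ℤ) - a - j) else 0) =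
      L * SS L := by
    intro a ha
    have ha' := Finset.mem_Icc.mp (hA ha)
    have h3 : ∀ j ∈ range L, ∑ s ∈ range (n + L - 1),
      (if a + j + s + 1 = n + L then ((L : ℝ) - j) * GG L χ ((n : ℤ) - a - j) else 0) =
      ((L : ℝ) - j) * GG L χ (((n - a : ℕ) : ℤ) - j) := by
      intro j hj
      have hj' := mem_range.mp hj
      rw [Finset.sum_eq_single (n + L - 1 - a - j)]
      · have e : a + j + (n + L - 1 - a - j) + 1 = n + L := by omega
        have e2 : ((n : ℤ) - a - j) = (((n - a : ℕ) : ℤ) - j) := by omega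
        rw [if_pos e, e2]
      · intro s _ hs
        rw [if_neg]
        omega
      · intro h
        exfalso
        apply h
        rw [mem_range]
        omega
    rw [Finset.sum_congr rfl h3]
    exact G_conv hχ hL (n - a)
  rw [Finset.sum_congr rfl h2]
  simp

theorem count_le_one {A : Finset ℕ} (hS : Sid A) {j j' : ℕ} (hjj : j ≠ j') :
    ∑ a ∈ A, ∑ a' ∈ A, (if a + j = a' + j' then (1 : ℝ) else 0) ≤ 1 := by
  rw [← Finset.sum_product', ← Finset.sum_filter]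
  rw [Finset.sum_const, nsmul_eq_mul, mul_one]
  have : ((A ×ˢ A).filter (fun p => p.1 + j = p.2 + j')).card ≤ 1 := by
    rw [Finset.card_le_one]
    intro p hp q hq
    simp only [mem_filter, mem_product] at hp hq
    obtain ⟨⟨hp1, hp2⟩, hp3⟩ := hp
    obtain ⟨⟨hq1, hq2⟩, hq3⟩ := hq
    have h := hS p.1 hp1 q.2 hq2 q.1 hq1 p.2 hp2 (by omega)
    rcases h with ⟨h1, h2⟩ | ⟨h1, h2⟩
    · exact Prod.ext h1 h2.symm
    · exfalso; apply hjj; omega
  exact_mod_cast this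

theorem count_diag {A : Finset ℕ} (j : ℕ) :
    ∑ a ∈ A, ∑ a' ∈ A, (if a + j = a' + j then (1 : ℝ) else 0) = A.card := by
  have : ∀ a ∈ A, ∑ a' ∈ A, (if a + j = a' + j then (1 : ℝ) else 0) = 1 := by
    intro a ha
    rw [Finset.sum_eq_single a]
    · simp
    · intro b _ hb
      rw [if_neg]
      omega
    · intro h; exact absurd ha h
  rw [Finset.sum_congr rfl this]
  simp

theorem energy_upper {A : Finset ℕ} (hS : Sid A) (n L : ℕ) :
    ∑ s ∈ range (n + L - 1), UU A n L s ^ 2 ≤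
      ((A.card : ℝ) - 1) * (∑ j ∈ range L, ((L : ℝ) - j) ^ 2) + SS L ^ 2 := by
  have hw : ∀ j ∈ range L, (0 : ℝ) ≤ (L : ℝ) - j := by
    intro j hj
    have : (j : ℝ) ≤ L := by exact_mod_cast (mem_range.mp hj).le
    linarith
  -- expand the square
  have h1 : ∀ s ∈ range (n + L - 1), UU A n L s ^ 2 =
      ∑ p ∈ A ×ˢ range L, ∑ q ∈ A ×ˢ range L,
        (if p.1 + p.2 + s + 1 = n + L then ((L : ℝ) - p.2) else 0) *
        (if q.1 + q.2 + s + 1 = n + L then ((L : ℝ) - q.2) else 0) := by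
    intro s _
    rw [UU, pow_two, Finset.sum_mul_sum]
  rw [Finset.sum_congr rfl h1, Finset.sum_comm]
  have h2 : ∀ p ∈ A ×ˢ range L, ∑ s ∈ range (n + L - 1), ∑ q ∈ A ×ˢ range L,
        (if p.1 + p.2 + s + 1 = n + L then ((L : ℝ) - p.2) else 0) *
        (if q.1 + q.2 + s + 1 = n + L then ((L : ℝ) - q.2) else 0) ≤
      ∑ q ∈ A ×ˢ range L, (((L : ℝ) - p.2) * ((L : ℝ) - q.2)) *
        (if p.1 + p.2 = q.1 + q.2 then 1 else 0) := by
    intro p hp
    rw [Finset.sum_comm]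
    apply Finset.sum_le_sum
    intro q hq
    have hp2 := hw p.2 (mem_product.mp hp).2
    have hq2 := hw q.2 (mem_product.mp hq).2
    by_cases hpq : p.1 + p.2 = q.1 + q.2
    · rw [if_pos hpq, mul_one]
      have h3 : ∀ s ∈ range (n + L - 1),
          (if p.1 + p.2 + s + 1 = n + L then ((L : ℝ) - p.2) else 0) *
          (if q.1 + q.2 + s + 1 = n + L then ((L : ℝ) - q.2) else 0) =
          if s = n + L - 1 - (p.1 + p.2) ∧ p.1 + p.2 + 1 ≤ n + L then
            ((L : ℝ) - p.2) * ((L : ℝ) - q.2) else 0 := by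
        intro s _
        by_cases hs : p.1 + p.2 + s + 1 = n + L
        · have hs2 : q.1 + q.2 + s + 1 = n + L := by omega
          rw [if_pos hs, if_pos hs2, if_pos]
          omega
        · rw [if_neg hs, zero_mul, if_neg]
          omega
      rw [Finset.sum_congr rfl h3]
      by_cases hle : p.1 + p.2 + 1 ≤ n + L
      · have h4 : ∀ s ∈ range (n + L - 1), (if s = n + L - 1 - (p.1 + p.2) ∧ p.1 + p.2 + 1 ≤ n + L then
            ((L : ℝ) - p.2) * ((L : ℝ) - q.2) else 0) =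
            if s = n + L - 1 - (p.1 + p.2) then ((L : ℝ) - p.2) * ((L : ℝ) - q.2) else 0 := by
          intro s _
          simp [hle]
        rw [Finset.sum_congr rfl h4, Finset.sum_ite_eq']
        split_ifs
        · exact le_refl _
        · positivity
      · rw [Finset.sum_eq_zero]
        · positivity
        · intro s _
          rw [if_neg]
          tauto
    · rw [if_neg hpq, mul_zero]
      apply le_of_eq
      apply Finset.sum_eq_zero
      intro s _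
      by_cases hs : p.1 + p.2 + s + 1 = n + L
      · have : ¬ (q.1 + q.2 + s + 1 = n + L) := by omega
        rw [if_neg this, mul_zero]
      · rw [if_neg hs, zero_mul]
  -- reorganise
  have h5 : ∑ p ∈ A ×ˢ range L, ∑ q ∈ A ×ˢ range L, (((L : ℝ) - p.2) * ((L : ℝ) - q.2)) *
        (if p.1 + p.2 = q.1 + q.2 then (1 : ℝ) else 0) =
      ∑ j ∈ range L, ∑ j' ∈ range L, (((L : ℝ) - j) * ((L : ℝ) - j')) *
        ∑ a ∈ A, ∑ a' ∈ A, (if a + j = a' + j' then (1 : ℝ) else 0) := by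
    rw [Finset.sum_product_right]
    apply Finset.sum_congr rfl
    intro j _
    simp_rw [Finset.sum_product_right]
    rw [Finset.sum_comm]
    apply Finset.sum_congr rfl
    intro j' _
    rw [Finset.mul_sum]
    apply Finset.sum_congr rfl
    intro a _
    rw [Finset.mul_sum]
  have h6 : ∑ j ∈ range L, ∑ j' ∈ range L, (((L : ℝ) - j) * ((L : ℝ) - j')) *
        ∑ a ∈ A, ∑ a' ∈ A, (if a + j = a' + j' then (1 : ℝ) else 0) ≤
      ∑ j ∈ range L, ∑ j' ∈ range L, ((((L : ℝ) - j) * ((L : ℝ) - j')) +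
        if j = j' then ((A.card : ℝ) - 1) * ((L : ℝ) - j) ^ 2 else 0) := by
    apply Finset.sum_le_sum
    intro j hj
    apply Finset.sum_le_sum
    intro j' hj'
    by_cases hjj : j = j'
    · subst hjj
      rw [count_diag, if_pos rfl]
      apply le_of_eq
      ring
    · rw [if_neg hjj, add_zero]
      have := count_le_one hS hjj
      calc _ ≤ (((L : ℝ) - j) * ((L : ℝ) - j')) * 1 :=
            mul_le_mul_of_nonneg_left this (mul_nonneg (hw j hj) (hw j' hj'))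
        _ = _ := mul_one _
  have h7 : ∑ j ∈ range L, ∑ j' ∈ range L, ((((L : ℝ) - j) * ((L : ℝ) - j')) +
        if j = j' then ((A.card : ℝ) - 1) * ((L : ℝ) - j) ^ 2 else 0) =
      ((A.card : ℝ) - 1) * (∑ j ∈ range L, ((L : ℝ) - j) ^ 2) + SS L ^ 2 := by
    simp_rw [Finset.sum_add_distrib]
    rw [SS, pow_two, Finset.sum_mul_sum, add_comm]
    congr 1
    rw [Finset.mul_sum]
    apply Finset.sum_congr rfl
    intro j hj
    rw [Finset.sum_ite_eq, if_pos hj]
  calc _ ≤ ∑ p ∈ A ×ˢ range L, ∑ q ∈ A ×ˢ range L, (((L : ℝ) - p.2) * ((L : ℝ) - q.2)) *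
        (if p.1 + p.2 = q.1 + q.2 then (1 : ℝ) else 0) := Finset.sum_le_sum h2
    _ ≤ _ := by rw [h5]; exact h6
    _ = _ := h7

/-- Number of nonnegative indices. -/
theorem conv_sum {L n : ℕ} {χ : ℤ → ℝ} (hχ : IsChi L χ) (hL : 0 < L) :
    ∑ s ∈ range (n + L - 1), ∑ j ∈ range L, ((L : ℝ) - j) * χ ((s : ℤ) - L + 1 - j) = L * n := by
  have h1 : n + L - 1 = (L - 1) + n := by omega
  rw [h1, Finset.sum_range_add]
  have h2 : ∑ s ∈ range (L - 1), ∑ j ∈ range L, ((L : ℝ) - j) * χ ((s : ℤ) - L + 1 - j) = 0 := by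
    apply Finset.sum_eq_zero
    intro s hs
    apply conv_neg hχ
    have := mem_range.mp hs
    omega
  have h3 : ∀ s ∈ range n, ∑ j ∈ range L, ((L : ℝ) - j) * χ (((L - 1 + s : ℕ) : ℤ) - L + 1 - j) =
      L := by
    intro s _
    have : (((L - 1 + s : ℕ) : ℤ) - L + 1) = (s : ℤ) := by omega
    rw [this]
    exact conv_nonneg hχ hL s
  rw [h2, Finset.sum_congr rfl h3]
  simp
  ring

theorem main_ineq {n L : ℕ} (hL : 0 < L) (hLn : L ≤ n) (A : Finset ℕ)
    (hA : A ⊆ Finset.Icc 1 n) (hS : Sid A) (hne : A.Nonempty) :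
    (A.card : ℝ) ^ 2 ≤ ((n : ℝ) + 2 * L / 3 + L ^ 3 * Real.sqrt ((1 - 1 / (L : ℝ)) ^ (n - L))) *
      (1 + ((A.card : ℝ) - 1) * (4 / (3 * L))) := by
  obtain ⟨χ, hχ⟩ := exists_chi L hL
  have hL' : (0 : ℝ) < L := by exact_mod_cast hL
  have hL1 : (1 : ℝ) ≤ L := by exact_mod_cast hL
  have hSpos : 0 < SS L := by rw [SS_eq]; positivity
  have hm1 : (1 : ℝ) ≤ A.card := by exact_mod_cast hne.card_pos
  set m : ℝ := (A.card : ℝ) with hm
  set c : ℝ := (L : ℝ) / SS L with hc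
  set δ : ℝ := Real.sqrt ((1 - 1 / (L : ℝ)) ^ (n - L)) with hδ
  have hq0 : 0 ≤ 1 - 1 / (L : ℝ) := by
    rw [sub_nonneg, div_le_one hL']; exact hL1
  have hq1 : 1 - 1 / (L : ℝ) ≤ 1 := by
    have : 0 ≤ 1 / (L : ℝ) := by positivity
    linarith
  have hδ0 : 0 ≤ δ := Real.sqrt_nonneg _
  have hδ1 : δ ≤ 1 := by
    rw [hδ]
    calc Real.sqrt ((1 - 1 / (L : ℝ)) ^ (n - L)) ≤ Real.sqrt 1 :=
          Real.sqrt_le_sqrt (pow_le_one₀ hq0 hq1)
      _ = 1 := Real.sqrt_one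
  have hc0 : 0 ≤ c := by rw [hc]; positivity
  -- pointwise bound
  have hchi : ∀ k : ℤ, (n : ℤ) - L ≤ k → χ k ≤ c + δ := by
    intro k hk
    obtain ⟨t, rfl⟩ : ∃ t : ℕ, k = t := ⟨k.toNat, by omega⟩
    have h1 := chi_sub_sq_le hχ hL t
    have h2 : (1 - 1 / (L : ℝ)) ^ t ≤ (1 - 1 / (L : ℝ)) ^ (n - L) :=
      pow_le_pow_of_le_one hq0 hq1 (by omega)
    have h3 : |χ (t : ℤ) - c| ≤ δ := by
      rw [hδ]
      apply Real.abs_le_sqrt
      exact h1.trans h2
    have := (abs_le.mp h3).2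
    linarith
  have hw : ∀ j ∈ range L, (0 : ℝ) ≤ (L : ℝ) - j := by
    intro j hj
    have : (j : ℝ) ≤ L := by exact_mod_cast (mem_range.mp hj).le
    linarith
  set W : ℝ := ∑ j ∈ range L, ((L : ℝ) - j) * j with hW
  have hP : PP L χ ((n : ℤ) - 1) ≤ W * (c + δ) := by
    unfold PP
    rw [hW, Finset.sum_mul]
    apply Finset.sum_le_sum
    intro j hj
    have hjL := mem_range.mp hj
    have h1 : ∑ i ∈ range j, χ ((n : ℤ) - 1 - i) ≤ ∑ i ∈ range j, (c + δ) := by
      apply Finset.sum_le_sum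
      intro i hi
      have := mem_range.mp hi
      apply hchi
      omega
    rw [Finset.sum_const, card_range, nsmul_eq_mul] at h1
    calc _ ≤ ((L : ℝ) - j) * (j * (c + δ)) := mul_le_mul_of_nonneg_left h1 (hw j hj)
      _ = _ := by ring
  have hGnn : ∀ k : ℤ, 0 ≤ GG L χ k := by
    intro k
    unfold GG
    apply Finset.sum_nonneg
    intro j hj
    exact mul_nonneg (hw j hj) (hχ.nonneg _)
  have hcS : c * SS L = L := by rw [hc]; field_simp
  have hG : ∀ k : ℤ, (n : ℤ) - L ≤ k → GG L χ k ≤ L + SS L * δ := by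
    intro k hk
    have h1 : GG L χ k ≤ ∑ j ∈ range L, ((L : ℝ) - j) * (c + δ) := by
      unfold GG
      apply Finset.sum_le_sum
      intro j hj
      exact mul_le_mul_of_nonneg_left (hchi _ (by omega)) (hw j hj)
    rw [← Finset.sum_mul] at h1
    have h2 : ∑ j ∈ range L, ((L : ℝ) - j) = SS L := rfl
    rw [h2] at h1
    nlinarith
  have hQ : QQ L χ ((n : ℤ) - 1) ≤ W * ((c + δ) * (L + SS L * δ)) := by
    unfold QQ
    rw [hW, Finset.sum_mul]
    apply Finset.sum_le_sum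
    intro j hj
    have hjL := mem_range.mp hj
    have h1 : ∑ i ∈ range j, χ ((n : ℤ) - 1 + 1 + i) * GG L χ ((n : ℤ) - 1 + 1 + i - j) ≤
        ∑ i ∈ range j, ((c + δ) * (L + SS L * δ)) := by
      apply Finset.sum_le_sum
      intro i hi
      have := mem_range.mp hi
      apply mul_le_mul (hchi _ (by omega)) (hG _ (by omega)) (hGnn _) (by positivity)
    rw [Finset.sum_const, card_range, nsmul_eq_mul] at h1
    calc _ ≤ ((L : ℝ) - j) * (j * ((c + δ) * (L + SS L * δ))) :=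
          mul_le_mul_of_nonneg_left h1 (hw j hj)
      _ = _ := by ring
  -- energy
  have hE := energy hχ hL (n + L - 1)
  have e1 : (((n + L - 1 : ℕ) : ℤ) - L) = (n : ℤ) - 1 := by omega
  rw [e1, conv_sum hχ hL] at hE
  have hWeq : W = ((L : ℝ) ^ 2 - 1) * L / 6 := sum_W_eq L
  have hW0 : 0 ≤ W := by
    rw [hWeq]
    have : 0 ≤ (L : ℝ) ^ 2 - 1 := by nlinarith
    positivity
  have hSeq := SS_eq L
  have hceq : c * (L + 1) = 2 := by
    rw [hc, hSeq]; field_simp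
  have hEup : ∑ s ∈ range (n + L - 1), GG L χ ((s : ℤ) - L + 1) ^ 2 ≤
      L ^ 2 * ((n : ℝ) + 2 * L / 3 + L ^ 3 * δ) := by
    rw [hE]
    have h1 : (L : ℝ) * PP L χ ((n : ℤ) - 1) ≤ L * (W * (c + δ)) :=
      mul_le_mul_of_nonneg_left hP hL'.le
    have h2 : L * (W * (c + δ)) + W * ((c + δ) * (L + SS L * δ)) =
        W * (2 * L * c) + W * (3 * L * δ + SS L * δ ^ 2) := by
      linear_combination W * δ * hcS
    have h3 : W * (2 * L * c) ≤ L ^ 2 * (2 * L / 3) := by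
      have : W * (2 * L * c) = (L : ℝ) ^ 2 * (L - 1) / 3 * (c * (L + 1)) := by rw [hWeq]; ring
      rw [this, hceq]
      nlinarith [sq_nonneg (L : ℝ)]
    have h4 : W * (3 * L * δ + SS L * δ ^ 2) ≤ L ^ 2 * (L ^ 3 * δ) := by
      have hδ2 : δ ^ 2 ≤ δ := by nlinarith
      have hS2 : SS L ≤ L ^ 2 := by rw [hSeq]; nlinarith
      have hW2 : W ≤ (L : ℝ) ^ 3 / 6 := by rw [hWeq]; nlinarith
      have h5 : 3 * L * δ + SS L * δ ^ 2 ≤ 4 * L ^ 2 * δ := by
        have : SS L * δ ^ 2 ≤ L ^ 2 * δ := mul_le_mul hS2 hδ2 (sq_nonneg _) (by positivity)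
        nlinarith [mul_nonneg hδ0 (sub_nonneg.mpr hL1)]
      have h6 : 0 ≤ 3 * L * δ + SS L * δ ^ 2 := by positivity
      calc W * (3 * L * δ + SS L * δ ^ 2) ≤ ((L : ℝ) ^ 3 / 6) * (4 * L ^ 2 * δ) :=
            mul_le_mul hW2 h5 h6 (by positivity)
        _ = (4 / 6) * (L ^ 2 * (L ^ 3 * δ)) := by ring
        _ ≤ 1 * (L ^ 2 * (L ^ 3 * δ)) := by
            apply mul_le_mul_of_nonneg_right _ (by positivity)
            norm_num
        _ = _ := one_mul _
    nlinarith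
  -- Cauchy Schwarz
  have hCS := Finset.sum_mul_sq_le_sq_mul_sq (range (n + L - 1))
    (fun s : ℕ => GG L χ ((s : ℤ) - L + 1)) (fun s => UU A n L s)
  rw [mass_identity hχ hL A hA] at hCS
  have hU := energy_upper hS n L
  rw [sum_sq_eq] at hU
  have hU0 : 0 ≤ ∑ s ∈ range (n + L - 1), UU A n L s ^ 2 := Finset.sum_nonneg (fun _ _ => sq_nonneg _)
  have hβ : (m - 1) * ((L : ℝ) * (L + 1) * (2 * L + 1) / 6) + SS L ^ 2 ≤
      SS L ^ 2 * (1 + (m - 1) * (4 / (3 * L))) := by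
    have : (L : ℝ) * (L + 1) * (2 * L + 1) / 6 ≤ SS L ^ 2 * (4 / (3 * L)) := by
      rw [hSeq]
      have e : ((L : ℝ) * (L + 1) / 2) ^ 2 * (4 / (3 * L)) = (L : ℝ) * (L + 1) * (2 * L + 2) / 6 := by
        field_simp
        ring
      rw [e]
      have : 0 ≤ (L : ℝ) * (L + 1) := by positivity
      nlinarith
    nlinarith [mul_le_mul_of_nonneg_left this (sub_nonneg.mpr hm1)]
  have hfin : (m * (L * SS L)) ^ 2 ≤ (L ^ 2 * ((n : ℝ) + 2 * L / 3 + L ^ 3 * δ)) *
      (SS L ^ 2 * (1 + (m - 1) * (4 / (3 * L)))) := by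
    calc _ ≤ _ := hCS
      _ ≤ _ := mul_le_mul hEup (hU.trans hβ) hU0 (by positivity)
  have hpos : 0 < (L * SS L : ℝ) ^ 2 := by positivity
  have : m ^ 2 * (L * SS L : ℝ) ^ 2 ≤ (((n : ℝ) + 2 * L / 3 + L ^ 3 * δ) *
      (1 + (m - 1) * (4 / (3 * L)))) * (L * SS L : ℝ) ^ 2 := by
    calc m ^ 2 * (L * SS L : ℝ) ^ 2 = (m * (L * SS L)) ^ 2 := by ring
      _ ≤ _ := hfin
      _ = _ := by ring
  exact le_of_mul_le_mul_right this hpos

end Pool.Agent.Helper23.SU
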